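import Pool.Agent.LPR.Stmts

/-!
# Row MIC of squad LPR: Michael's local to global lemma
-/

set_option autoImplicit false

open Set Topology

namespace Pool.Agent.LPR.H5

open Pool.Agent.LSG Pool.Agent.LPR

theorem mic (h : StoStmt) : MicStmt := by
  intro X _ _ P hher hun hdis hloc
  choose U hUo hxU hPU using hloc
  obtain ⟨ψ, h0, hsup, huniq, hlf, hcov⟩ := h X X U hUo (fun q => ⟨q, hxU q⟩)
  let G : ℕ → Set X := fun c => ⋃ x, {q | ψ c x q ≠ 0}
  have hopen : ∀ c x, IsOpen {q | ψ c x q ≠ 0} := fun c x =>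
    isOpen_ne_fun (ψ c x).continuous continuous_const
  have hGo : ∀ c, IsOpen (G c) := fun c => isOpen_iUnion (hopen c)
  have hlfc : ∀ c, LocallyFinite (fun x => Function.support (ψ c x)) := by
    intro c q
    obtain ⟨t, ht, hf⟩ := hlf q
    refine ⟨t, ht, ?_⟩
    have hinj : Function.Injective (fun x : X => (c, x)) := fun a b hab => by
      simpa using hab
    exact (hf.preimage hinj.injOn).subset (fun x hx => hx)
  have hPG : ∀ c, P (G c) := by
    intro c
    refine hdis X (fun x => {q | ψ c x q ≠ 0}) (hopen c) ?_ (hlfc c) ?_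
    · intro i j hij
      exact Set.disjoint_left.2 (fun q hi hj => hij (huniq c i j q hi hj))
    · intro x
      exact hher (U x) _ (hUo x) (hPU x) (fun q hq => hsup c x q hq) (hopen c x)
  let s : ℕ → X → ℝ := fun c q => ∑ᶠ x, ψ c x q
  have hsc : ∀ c, Continuous (s c) := fun c =>
    continuous_finsum (fun x => (ψ c x).continuous) (hlfc c)
  have hs0 : ∀ c q, 0 ≤ s c q := fun c q => finsum_nonneg (fun x => h0 c x q)
  have hsG : ∀ c q, s c q ≠ 0 → q ∈ G c := by
    intro c q hq
    by_contra hn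
    refine hq ?_
    have hz : ∀ x, ψ c x q = 0 := by
      intro x
      by_contra hx
      exact hn (mem_iUnion.2 ⟨x, hx⟩)
    show ∑ᶠ x, ψ c x q = 0
    simp [hz]
  have hGs : ∀ c q, q ∈ G c → 0 < s c q := by
    intro c q hq
    obtain ⟨x, hx⟩ := mem_iUnion.1 hq
    have hx' : ψ c x q ≠ 0 := hx
    have he : s c q = ψ c x q := finsum_eq_single _ x (fun y hy => by
      by_contra hne
      exact hy (huniq c y x q hne hx'))
    rw [he]
    exact lt_of_le_of_ne (h0 c x q) (Ne.symm hx')
  have hGlf : LocallyFinite G := by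
    intro q
    obtain ⟨t, ht, hf⟩ := hlf q
    refine ⟨t, ht, (hf.image Prod.fst).subset ?_⟩
    rintro c ⟨y, hy, hyt⟩
    obtain ⟨x, hx⟩ := mem_iUnion.1 hy
    exact ⟨(c, x), ⟨y, hx, hyt⟩, rfl⟩
  have hslf : LocallyFinite (fun c => Function.support (s c)) :=
    hGlf.subset (fun c q hq => hsG c q hq)
  have hfs : ∀ q, (Function.support (fun c => s c q)).Finite := fun q => hslf.point_finite q
  have hslf2 : LocallyFinite (fun c : ℕ => Function.support (fun q => (c : ℝ) * s c q)) :=
    hslf.subset (fun c q hq => by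
      rw [Function.mem_support] at hq ⊢
      exact fun h => hq (by rw [h, mul_zero]))
  let T : X → ℝ := fun q => ∑ᶠ c, s c q
  let N : X → ℝ := fun q => ∑ᶠ c : ℕ, (c : ℝ) * s c q
  have hTc : Continuous T := continuous_finsum hsc hslf
  have hNc : Continuous N :=
    continuous_finsum (fun c => continuous_const.mul (hsc c)) hslf2
  have hTp : ∀ q, 0 < T q := by
    intro q
    obtain ⟨c, i, hci⟩ := hcov q
    exact finsum_pos' (fun c => hs0 c q) ⟨c, hGs c q (mem_iUnion.2 ⟨i, hci⟩)⟩ (hfs q)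
  have hN0 : ∀ q, 0 ≤ N q := fun q =>
    finsum_nonneg (fun c => mul_nonneg (Nat.cast_nonneg c) (hs0 c q))
  let hh : X → ℝ := fun q => N q / T q
  have hhc : Continuous hh := hNc.div hTc (fun q => (hTp q).ne')
  have hh0 : ∀ q, 0 ≤ hh q := fun q => div_nonneg (hN0 q) (hTp q).le
  have key : ∀ (n : ℕ) q, hh q < n + 1 → ∃ c, c < n + 1 ∧ q ∈ G c := by
    intro n q hq
    by_contra hno
    have hno' : ∀ c, c < n + 1 → s c q = 0 := by
      intro c hc
      by_contra hne
      exact hno ⟨c, hc, hsG c q hne⟩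
    have h1 : ((n : ℝ) + 1) * T q ≤ N q := by
      have h2 : ((n : ℝ) + 1) * T q = ∑ᶠ c, ((n : ℝ) + 1) * s c q :=
        mul_finsum _ _
      rw [h2]
      refine finsum_le_finsum' ?_ ?_ ?_
      · refine (hfs q).subset (fun c hc => ?_)
        rw [Function.mem_support] at hc ⊢
        exact fun h => hc (by rw [h, mul_zero])
      · refine (hfs q).subset (fun c hc => ?_)
        rw [Function.mem_support] at hc ⊢
        exact fun h => hc (by rw [h, mul_zero])
      · intro c
        by_cases hc : c < n + 1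
        · simp [hno' c hc]
        · have hc' : n + 1 ≤ c := not_lt.1 hc
          have hc2 : ((n : ℝ) + 1) ≤ c := by exact_mod_cast hc'
          exact mul_le_mul_of_nonneg_right hc2 (hs0 c q)
    have h3 : ((n : ℝ) + 1) ≤ hh q := (le_div_iff₀ (hTp q)).2 h1
    exact absurd hq (not_lt.2 h3)
  -- finite unions
  have hempty : P ∅ := by
    have := hdis Empty (fun i => i.elim) (fun i => i.elim) (fun i => i.elim)
      (locallyFinite_of_finite _) (fun i => i.elim)
    simpa using this
  let V : ℕ → Set X := fun n => {q | ∃ c, c < n ∧ q ∈ G c}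
  have hVs : ∀ n, V (n + 1) = V n ∪ G n := by
    intro n
    ext q
    constructor
    · rintro ⟨c, hc, hq⟩
      rcases Nat.lt_succ_iff_lt_or_eq.1 hc with h1 | h1
      · exact Or.inl ⟨c, h1, hq⟩
      · exact Or.inr (h1 ▸ hq)
    · rintro (⟨c, hc, hq⟩ | hq)
      · exact ⟨c, Nat.lt_succ_of_lt hc, hq⟩
      · exact ⟨n, Nat.lt_succ_self n, hq⟩
  have hV : ∀ n, IsOpen (V n) ∧ P (V n) := by
    intro n
    induction n with
    | zero =>
      have : V 0 = ∅ := by
        ext q
        simp [V]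
      rw [this]
      exact ⟨isOpen_empty, hempty⟩
    | succ n ih =>
      rw [hVs]
      exact ⟨ih.1.union (hGo n), hun _ _ ih.1 (hGo n) ih.2 (hPG n)⟩
  let D : ℕ → Set X := fun k => {q | (k : ℝ) - 1 < hh q ∧ hh q < k + 1}
  have hDo : ∀ k, IsOpen (D k) := fun k =>
    (isOpen_lt continuous_const hhc).inter (isOpen_lt hhc continuous_const)
  have hDP : ∀ k, P (D k) := by
    intro k
    refine hher (V (k + 1)) (D k) (hV (k + 1)).1 (hV (k + 1)).2 ?_ (hDo k)
    intro q hq
    exact key k q hq.2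
  have hDlf : LocallyFinite D := by
    intro q
    refine ⟨{y | hh y < hh q + 1}, (isOpen_lt hhc continuous_const).mem_nhds (by
      show hh q < hh q + 1
      linarith), ?_⟩
    refine (Set.finite_lt_nat (⌈hh q + 2⌉₊ + 1)).subset ?_
    rintro k ⟨y, hy, hy'⟩
    have h1 : (k : ℝ) - 1 < hh y := hy.1
    have h2 : hh y < hh q + 1 := hy'
    have h3 : (k : ℝ) < hh q + 2 := by linarith
    have h4 : (k : ℝ) < (⌈hh q + 2⌉₊ : ℝ) := lt_of_lt_of_le h3 (Nat.le_ceil _)
    have h5 : k < ⌈hh q + 2⌉₊ := by exact_mod_cast h4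
    show k < ⌈hh q + 2⌉₊ + 1
    omega
  have hdisj : ∀ i j : ℕ, i + 2 ≤ j → Disjoint (D i) (D j) := by
    intro i j hij
    refine Set.disjoint_left.2 (fun q hi hj => ?_)
    have h1 : hh q < i + 1 := hi.2
    have h2 : (j : ℝ) - 1 < hh q := hj.1
    have h3 : ((i : ℝ) + 2) ≤ j := by exact_mod_cast hij
    linarith
  have hall : ∀ f : ℕ → ℕ, (∀ i j, i < j → f i + 2 ≤ f j) → P (⋃ i, D (f i)) := by
    intro f hf
    have hinj : Function.Injective f := by
      intro a b hab
      rcases lt_trichotomy a b with h1 | h1 | h1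
      · have := hf a b h1
        omega
      · exact h1
      · have := hf b a h1
        omega
    refine hdis ℕ (fun i => D (f i)) (fun i => hDo _) ?_ (hDlf.comp_injective hinj)
      (fun i => hDP _)
    intro i j hij
    rcases lt_or_gt_of_ne hij with h1 | h1
    · exact hdisj _ _ (hf i j h1)
    · exact (hdisj _ _ (hf j i h1)).symm
  have hE := hall (fun j => 2 * j) (fun i j hij => by omega)
  have hO := hall (fun j => 2 * j + 1) (fun i j hij => by omega)
  have hEo : IsOpen (⋃ i, D (2 * i)) := isOpen_iUnion (fun i => hDo _)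
  have hOo : IsOpen (⋃ i, D (2 * i + 1)) := isOpen_iUnion (fun i => hDo _)
  have hfin := hun _ _ hEo hOo hE hO
  have huniv : (⋃ i, D (2 * i)) ∪ (⋃ i, D (2 * i + 1)) = Set.univ := by
    refine Set.eq_univ_of_forall (fun q => ?_)
    have hk : q ∈ D ⌊hh q⌋₊ := by
      have h1 := Nat.floor_le (hh0 q)
      have h2 := Nat.lt_floor_add_one (hh q)
      exact ⟨by linarith, h2⟩
    obtain ⟨j, hj | hj⟩ := Nat.even_or_odd' ⌊hh q⌋₊
    · exact Or.inl (mem_iUnion.2 ⟨j, hj ▸ hk⟩)
    · exact Or.inr (mem_iUnion.2 ⟨j, hj ▸ hk⟩)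
  rwa [huniv] at hfin

end Pool.Agent.LPR.H5
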